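import Pool.Agent.N931.PN.Stm2
import Pool.Agent.N56.PN.BW

/-!
PN/BW2 (project PN of helper931): two-layer spectral weight of a block. By helper488, after
`Pool.Agent.N56.PN.BW` of helper56.
-/

set_option autoImplicit false

namespace Pool.Agent.N488.PN.BW2

open H974 H12S H389NS Finset Pool.Agent.N56.PN.BW

theorem main : Pool.Agent.N931.PN.S_BW2 := by
  intro S B hB f x hx0 hx1
  set g : Finset Edg → ℝ := fun F => f F - f (F \ B) with hg
  have h1 : ∀ T ∈ S.powerset.filter (fun T => ¬ Disjoint T B), (wal S f T) ^ 2 * x ^ T.card =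
      (wal S g T) ^ 2 * x ^ T.card := by
    intro T hT
    obtain ⟨hTS, hTB⟩ := Finset.mem_filter.mp hT
    rw [Finset.not_disjoint_iff] at hTB
    obtain ⟨b, hbT, hbB⟩ := hTB
    have h2 : wal S (fun F => f (F \ B)) T = 0 := by
      refine wal_zero (Finset.mem_powerset.mp hTS) hbT _ fun F => ?_
      rw [Finset.insert_sdiff_of_mem _ hbB]
    rw [hg, wal_sub, h2, sub_zero]
  have h3 : E2 (fun _ => x) S (fun F F' => (f F - f (F \ B)) * (f F' - f (F' \ B))) =
      ∑ T ∈ S.powerset, (wal S g T) ^ 2 * x ^ T.card := by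
    have h4 := E2_wal (fun _ => x) S g g
    refine h4.trans (Finset.sum_congr rfl fun T _ => ?_)
    rw [Finset.prod_const, pow_two]
  rw [h3]
  calc ∑ T ∈ S.powerset.filter (fun T => ¬ Disjoint T B), (wal S f T) ^ 2 * x ^ T.card
      = ∑ T ∈ S.powerset.filter (fun T => ¬ Disjoint T B), (wal S g T) ^ 2 * x ^ T.card :=
        Finset.sum_congr rfl h1
    _ ≤ ∑ T ∈ S.powerset, (wal S g T) ^ 2 * x ^ T.card :=
        Finset.sum_le_sum_of_subset_of_nonneg (Finset.filter_subset _ _)
          (fun _ _ _ => mul_nonneg (sq_nonneg _) (pow_nonneg hx0 _))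

end Pool.Agent.N488.PN.BW2
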