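import Pool.Agent.N931.PN.Stm2

/-!
PN/EXN (project PN of helper931): two arms from an examined block. By helper488.
-/

set_option autoImplicit false

namespace Pool.Agent.N488.PN.EXN

open H974 H12S H389NS H984N H984P H342P Finset
open Pool.Agent.N116.EW Pool.Agent.N931.PN

/-- The edges of a block do not matter for the arms outside of it. -/
theorem nx_sdiff {D : Dm} {z : Vtx} {d R : ℕ} {F B : Finset Edg} (hB : B ⊆ blk z d)
    (h : NX D z d R (F \ B)) : NX D z d R F := by
  obtain ⟨h1, h2⟩ := h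
  refine ⟨fun hw => ?_, fun ho => ?_⟩
  · obtain ⟨u, w, hu, hw', hr⟩ := h1 hw
    refine ⟨u, w, hu, hw', Reach.mono ?_ hr⟩
    rintro e ⟨he, he'⟩
    exact ⟨(Finset.mem_sdiff.1 (Finset.mem_coe.1 he)).1, he'⟩
  · obtain ⟨f, g, hf, hg, hr⟩ := h2 ho
    refine ⟨f, g, hf, hg, DReach.mono ?_ hr⟩
    rintro e ⟨he, he', he''⟩
    refine ⟨he, fun hc => he' ?_, he''⟩
    rcases hc with hc | hc
    · exact Or.inl (Finset.mem_coe.2 (Finset.mem_sdiff.2 ⟨Finset.mem_coe.1 hc,
        fun hb => he'' (hB hb)⟩))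
    · exact Or.inr hc

/-- Any statement about an examined edge. -/
theorem main (hx : S_HX) : S_EXN := by
  intro D hD F B hF z d R hd hB hE
  obtain ⟨e, he, heB⟩ := hE
  exact nx_sdiff hB (hx D hD (F \ B) (Finset.sdiff_subset.trans hF) z d R hd ⟨e, he, hB heB⟩)

end Pool.Agent.N488.PN.EXN
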