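import Pool.Agent.N931.PN.Stm5
import Pool.Agent.H389R2.NS.E1b

/-!
# PN/PAR: a pivotal edge has four arms

Author: helper488 (project PN of helper931, page MP_fe58d8_pr).
-/

set_option autoImplicit false

namespace Pool.Agent.N488.PN.PAR

open H974 H12S H389NS H984N H984P H342P Finset
open Pool.Agent.N116.EW Pool.Agent.N931.PN

theorem Cn_mono' {I J : Set Vtx} {F G : Set Edg} (h : F ⊆ G) (hC : Cn I J F) : Cn I J G := by
  obtain ⟨u, hu, v, hv, h1⟩ := hC
  exact ⟨u, hu, v, hv, h1.mono h⟩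

theorem KM_mono {D : Dm} {m : ℤ} {F G : Finset Edg} (h : F ⊆ G) (hK : KM D m F) : KM D m G :=
  Cn_mono' (Set.inter_subset_inter_left _ (by exact_mod_cast h)) hK

theorem main : S_PAR := by
  intro D hD m hm hmr F hF e he hne k hk hbd hem
  -- pivotality
  have hpiv : KM D m (insert e F) ∧ ¬ KM D m (F.erase e) := by
    by_cases h1 : KM D m (F.erase e)
    · exfalso
      have h2 : KM D m (insert e F) := KM_mono ((erase_subset _ _).trans (subset_insert _ _)) h1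
      apply hne
      simp [dif, ind, h1, h2]
    · by_cases h2 : KM D m (insert e F)
      · exact ⟨h2, h1⟩
      · exfalso
        apply hne
        simp [dif, ind, h1, h2]
  have hbd' : D.l + k + 4 ≤ e.1 ∧ e.1 + k + 4 ≤ D.r ∧ (k : ℤ) + 4 ≤ e.2.1 ∧
      e.2.1 + k + 4 ≤ D.h := by
    unfold Dm.bd at hbd
    simp only [src, le_min_iff] at hbd
    omega
  obtain ⟨b1, b2, b3, b4⟩ := hbd'
  have hem' : e.1 + k + 4 ≤ m := hem
  have heS : e ∈ RE D.l m 0 D.h := by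
    obtain ⟨x, y, _ | _⟩ := e
    · rw [mem_RE_false]; simp only at *; omega
    · rw [mem_RE_true]; simp only at *; omega
  have hPv : Pv (wa D) (lsd m 0 D.h) e ((↑F : Set Edg) ∩ ↑(RE D.l m 0 D.h)) := by
    refine ⟨Cn_mono' ?_ hpiv.1, fun h => hpiv.2 (Cn_mono' ?_ h)⟩
    · rintro g ⟨g1, g2⟩
      rcases mem_insert.1 (mem_coe.1 g1) with rfl | g3
      · exact Or.inl rfl
      · exact Or.inr ⟨g3, g2⟩
    · rintro g ⟨⟨g1, g2⟩, g3⟩
      exact ⟨mem_coe.2 (mem_erase.2 ⟨g3, g1⟩), g2⟩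
  have hA : A4e k e (↑F : Set Edg) := by
    have h1 : A4 (e.1 - k) (e.1 + k) (e.2.1 - k) (e.2.1 + k) e
        ((↑F : Set Edg) ∩ ↑(RE D.l m 0 D.h)) := by
      refine loc_a4 (mem_ebx hk) ?_ hPv
      rintro v (hv | hv)
      · rcases hv with hv | hv | hv <;> omega
      · have := hv.1
        omega
    refine A4_local ?_ h1
    ext g
    constructor
    · rintro ⟨⟨⟨g1, g2⟩, g3⟩, g4⟩
      exact ⟨⟨g1, g3⟩, g4⟩
    · rintro ⟨⟨g1, g3⟩, g4⟩
      exact ⟨⟨⟨g1, mem_coe.2 (RE_subset (by omega) (by omega) (by omega) (by omega)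
        (mem_coe.1 g3))⟩, g3⟩, g4⟩
  exact ⟨hA, fun d hd hdk => (A4e_split1 hd hdk hA).2⟩

end Pool.Agent.N488.PN.PAR
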